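import Mathlib
import Pool.Agent.R525.HJ.Mor

/-!
# MP_105042_an: vanishing Morrey quantities at every point do not give Hölder continuity

We answer Q1 in the negative, in every dimension and for every exponent below the dimension:
for every `n ≥ 3` and every `k ≥ 2` there are one (Borel) nonlinearity `Q` of quadratic growth and
one *bounded* weak solution `u : B₁ → ℝᵏ` of `Δ u = Q(x, u, ∇u)` which lies in `W^{1,p}(B₁)` for
every `p ∈ (2, n)`, whose Morrey quantity `M_p(x₀, t)` tends to `0` as `t → 0` (and is even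
`O(t^δ)` with `δ = δ(p) > 0` independent of `x₀`) at every point `x₀ ∈ B₁`, for every `p ∈ (2, n)`,
and which is not Hölder continuous in `B_{1/2}`; it does not even agree a.e. in `B_{1/2}` with a
continuous map.  (The case `p = n` is the positive theorem of He and Jiang.)

The solution is an infinite superposition of concentrating bubbles
`(⟨e₁,ξ⟩, ⟨e₂,ξ⟩, 0, …, 0) (1 + |ξ|^(2n))^(-1/2)`, `ξ = (x - x_j)/r_j`, with `x_j = ρ_j e₀`,
`ρ_j = 2^{-j-2}`, `r_j = ρ_j²`.  The point is that the sum of all the bubbles still solves a system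
of quadratic growth, because the size of the gradient of the sum is bounded from below by the sum
of the sizes of the single gradients (project it on the rotation field in the `e₁, e₂` plane).
-/

set_option autoImplicit false

open Set Metric MeasureTheory Filter Topology
open scoped ContDiff ENNReal NNReal

namespace Pool.Agent.Results.MP_105042_an.SuperposedBubbles

/-- `ℝⁿ` with its Euclidean norm. -/
abbrev E (n : ℕ) := EuclideanSpace ℝ (Fin n)

/-- `ℝ^{n × k}`: a `k`-tuple of vectors of `ℝⁿ`, with the Euclidean (Frobenius) norm.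
The `i`-th vector of the gradient of `u` is the gradient of the `i`-th component of `u`. -/
abbrev Mat (n k : ℕ) := PiLp 2 (fun _ : Fin k => E n)

/-- `φ ∈ C_c^∞(B₁, F)`. -/
def IsTest {n : ℕ} {F : Type*} [NormedAddCommGroup F] [NormedSpace ℝ F] (φ : E n → F) : Prop :=
  ContDiff ℝ ∞ φ ∧ HasCompactSupport φ ∧ tsupport φ ⊆ ball 0 1

/-- `G` is the weak gradient of `u` in `B₁`. -/
def IsWeakGrad {n k : ℕ} (u : E n → E k) (G : E n → Mat n k) : Prop :=
  ∀ φ : E n → ℝ, IsTest φ → ∀ (i : Fin k) (v : E n),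
    ∫ x in ball (0 : E n) 1, u x i * fderiv ℝ φ x v =
      -∫ x in ball (0 : E n) 1, inner ℝ (G x i) v * φ x

/-- `u ∈ W^{1,p}(B₁, ℝᵏ)` with weak gradient `G`. -/
def MemW {n k : ℕ} (p : ℝ) (u : E n → E k) (G : E n → Mat n k) : Prop :=
  MemLp u (ENNReal.ofReal p) (volume.restrict (ball 0 1)) ∧
  MemLp G (ENNReal.ofReal p) (volume.restrict (ball 0 1)) ∧ IsWeakGrad u G

/-- `Q` has quadratic growth in the last variable. -/
def QuadraticGrowth {n k : ℕ} (Q : E n → E k → Mat n k → E k) : Prop :=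
  ∃ C > 0, ∀ x y z, ‖Q x y z‖ ≤ C * ‖z‖ ^ 2

/-- `u`, with weak gradient `G`, is a weak solution of `Δ u = Q(x, u, ∇u)` in `B₁`. -/
def IsWeakSolution {n k : ℕ} (Q : E n → E k → Mat n k → E k) (u : E n → E k)
    (G : E n → Mat n k) : Prop :=
  MemW 2 u G ∧ ∀ φ : E n → E k, IsTest φ →
    -∫ x in ball (0 : E n) 1, ∑ i, inner ℝ (G x i) (gradient (fun y => φ y i) x) =
      ∫ x in ball (0 : E n) 1, inner ℝ (Q x (u x) (G x)) (φ x)

/-- The Morrey quantity `M_p(x₀, t)` of a map with gradient `G`. -/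
noncomputable def morrey {n k : ℕ} (p : ℝ) (G : E n → Mat n k) (x₀ : E n) (t : ℝ) : ℝ :=
  (∫ x in ball x₀ t, ‖G x‖ ^ p) / t ^ ((n : ℝ) - p)

/-- `u` is Hölder continuous in `B_{1/2}`. -/
def HolderInHalfBall {n k : ℕ} (u : E n → E k) : Prop :=
  ∃ (v : E n → E k) (C α : ℝ≥0), 0 < α ∧ α < 1 ∧ HolderOnWith C α v (ball 0 (1 / 2)) ∧
    v =ᵐ[volume.restrict (ball 0 (1 / 2))] u

open Pool.Agent.R525.HJ in
/-- The construction, in dimension `m + 3` with `k + 2` components. -/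
theorem main (m k : ℕ) :
    ∃ (Q : E (m + 3) → E (k + 2) → Mat (m + 3) (k + 2) → E (k + 2)) (u : E (m + 3) → E (k + 2))
      (G : E (m + 3) → Mat (m + 3) (k + 2)),
      Measurable (fun t : E (m + 3) × E (k + 2) × Mat (m + 3) (k + 2) => Q t.1 t.2.1 t.2.2) ∧
      QuadraticGrowth Q ∧ IsWeakSolution Q u G ∧
      (∃ M, ∀ x, ‖u x‖ ≤ M) ∧
      (∀ p : ℝ, 2 < p → p < (m + 3 : ℕ) → MemW p u G ∧
        (∃ δ : ℝ, 0 < δ ∧ ∀ x₀ ∈ ball (0 : E (m + 3)) 1,
          (fun t => morrey p G x₀ t) =O[𝓝[>] 0] (fun t : ℝ => t ^ δ)) ∧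
        ∀ x₀ ∈ ball (0 : E (m + 3)) 1, Tendsto (fun t => morrey p G x₀ t) (𝓝[>] 0) (𝓝 0)) ∧
      (∀ v : E (m + 3) → E (k + 2), ContinuousOn v (ball 0 (1 / 2)) →
        ¬ v =ᵐ[volume.restrict (ball 0 (1 / 2))] u) ∧
      ¬ HolderInHalfBall u := by
  have hW : ∀ p : ℝ, 1 < p → p < m + 3 → MemW p (uu m k) (GG m k) := fun p hp hpn =>
    ⟨memLp_uu, memLp_GG hp hpn, fun φ hφ i v => weak_grad_uu hφ.1 hφ.2.1 hφ.2.2 i v⟩
  refine ⟨QQ m k, uu m k, GG m k, measurable_QQ, ?_, ?_, ⟨_, norm_uu_le⟩, ?_, not_cont, ?_⟩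
  · exact ⟨(k + 2 : ℝ) * (3 * (m + 3 : ℝ) ^ 2), by positivity, norm_QQ_le⟩
  · refine ⟨hW 2 (by norm_num) (by have : (0:ℝ) ≤ m := by positivity
                                   linarith), ?_⟩
    intro φ hφ
    exact weak_eq_uu hφ.1 hφ.2.1 hφ.2.2
  · intro p hp hpn
    push_cast at hpn
    obtain ⟨δ, hδ, h⟩ := mor_bigO (m := m) (k := k) (p := p) (by linarith) hpn
    refine ⟨hW p (by linarith) hpn, ⟨δ, hδ, fun x₀ _ => h x₀⟩, fun x₀ _ => ?_⟩
    refine (h x₀).trans_tendsto ?_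
    have h1 : Tendsto (fun t : ℝ => t ^ δ) (𝓝 0) (𝓝 (0 ^ δ)) :=
      (Real.continuousAt_rpow_const 0 δ (Or.inr hδ.le)).tendsto
    rw [Real.zero_rpow hδ.ne'] at h1
    exact h1.mono_left nhdsWithin_le_nhds
  · rintro ⟨v, C, α, hα, -, hH, hae⟩
    exact not_cont v (hH.continuousOn hα) hae

/-- **Negative answer to Q1, for all `n ≥ 3`, all `k ≥ 2` and all `p ∈ (2, n)` at once.** -/
theorem result (n k : ℕ) (hn : 3 ≤ n) (hk : 2 ≤ k) :
    ∃ (Q : E n → E k → Mat n k → E k) (u : E n → E k) (G : E n → Mat n k),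
      Measurable (fun t : E n × E k × Mat n k => Q t.1 t.2.1 t.2.2) ∧
      QuadraticGrowth Q ∧ IsWeakSolution Q u G ∧
      (∃ M, ∀ x, ‖u x‖ ≤ M) ∧
      (∀ p : ℝ, 2 < p → p < n → MemW p u G ∧
        (∃ δ : ℝ, 0 < δ ∧ ∀ x₀ ∈ ball (0 : E n) 1,
          (fun t => morrey p G x₀ t) =O[𝓝[>] 0] (fun t : ℝ => t ^ δ)) ∧
        ∀ x₀ ∈ ball (0 : E n) 1, Tendsto (fun t => morrey p G x₀ t) (𝓝[>] 0) (𝓝 0)) ∧
      (∀ v : E n → E k, ContinuousOn v (ball 0 (1 / 2)) →
        ¬ v =ᵐ[volume.restrict (ball 0 (1 / 2))] u) ∧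
      ¬ HolderInHalfBall u := by
  obtain ⟨m, rfl⟩ := Nat.exists_eq_add_of_le' hn
  obtain ⟨l, rfl⟩ := Nat.exists_eq_add_of_le' hk
  exact main m l

end Pool.Agent.Results.MP_105042_an.SuperposedBubbles
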